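import Pool.Agent.Q54.HT.Res

/-!
# Motives of automorphic representations in resolutions of cubic hypersurfaces

For a tensor `T` of integers of format `(M + 1) × (M + 1) × (r + 1)` let `C_T` be the hypersurface
`∑ T_{abc} x_a y_b z_c = 0`, `x_0 = y_0 = 1`, in the affine space of dimension `2 M + r + 1` over the
rational numbers (`cone T`). Choose for each `T` a completion `comp T` of `C_T`, for example the closure
in the projective space, a hypersurface of degree at most three, and a resolution of singularities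
`res T` of the completion. We show that every irreducible pure motive over `ℚ` is, up to a Tate
twist, a quotient of the homology of one of the varieties `res T`. So the motives in Clozel's
conjecture may be sought there.
-/

namespace Pool.Agent.Results.MP_7742d9_nt.ResolvedIntegralCubics

universe v w

open Q54.CU Q54.CC Q54.HT CategoryTheory AlgebraicGeometry

variable {𝓜 : Type w} [Category.{v} 𝓜] [Abelian 𝓜]

/-- The hypersurface `C_T` over the rational numbers. -/
noncomputable def cone {M r : ℕ} (T : Fin (M + 1) → Fin (M + 1) → Fin (r + 1) → ℤ) : SchO ℚ :=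
  tenO (fun a b c => (T a b c : ℚ)) 0

/-- The variety `X` is complete and smooth and there is an affine bundle over `X` with affine total
space. By Jouanolou all smooth projective varieties have these properties. -/
def IsSmoothProjective (X : SchO ℚ) : Prop :=
  IsVar X ∧ IsProper X.hom ∧ Smooth X.hom ∧ HasAffineTorsor X

/-- The variety `V` is complete and contains `C` as an open subscheme. -/
def IsCompletion (V C : SchO ℚ) : Prop := IsVar V ∧ IsProper V.hom ∧ ContainsOpen V C

/-- The object `S` is, up to a Tate twist, a quotient of the homology of `X`. -/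
def IsQuotientOfHomology (h : ℤ → ℤ → SchO ℚ → 𝓜) (S : 𝓜) (X : SchO ℚ) : Prop :=
  ∃ n s, IsQuotient (h n s X) S

/-- **Irreducible motives and resolutions of cubic hypersurfaces.** -/
theorem result (h : ℤ → ℤ → SchO ℚ → 𝓜) (hh : IsHomology h) (P W : ℤ → 𝓜 → Prop)
    (hW : IsWeights P W) (hw : HasWeights h P W)
    (comp res : ∀ {M r : ℕ}, (Fin (M + 1) → Fin (M + 1) → Fin (r + 1) → ℤ) → SchO ℚ)
    (hcomp : ∀ {M r : ℕ} (T : Fin (M + 1) → Fin (M + 1) → Fin (r + 1) → ℤ), IsCompletion (comp T) (cone T))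
    (hres : ∀ {M r : ℕ} (T : Fin (M + 1) → Fin (M + 1) → Fin (r + 1) → ℤ),
      IsSmoothProjective (res T) ∧ Covers h W (res T) (comp T)) :
    (∀ X : SchO ℚ, IsSmoothProjective X → ∃ (M r c : ℕ) (T : Fin (M + 1) → Fin (M + 1) → Fin (r + 1) → ℤ),
      ∀ n s : ℤ, IsQuotient (h (n + c) s (res T)) (h n s X)) ∧
    (∀ S : 𝓜, (∃ X : SchO ℚ, IsSmoothProjective X ∧ IsQuotientOfHomology h S X) ↔
      ∃ (M r : ℕ) (T : Fin (M + 1) → Fin (M + 1) → Fin (r + 1) → ℤ), IsQuotientOfHomology h S (res T)) ∧
    ∀ (A : Type w) (R : A → 𝓜 → Prop),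
      (∀ a, ∃ S, Simple S ∧ R a S ∧ ∃ X : SchO ℚ, IsSmoothProjective X ∧ IsQuotientOfHomology h S X) ↔
        ∀ a, ∃ S, Simple S ∧ R a S ∧
          ∃ (M r : ℕ) (T : Fin (M + 1) → Fin (M + 1) → Fin (r + 1) → ℤ), IsQuotientOfHomology h S (res T) := by
  have h1 : ∀ X : SchO ℚ, IsSmoothProjective X → ∃ (M r c : ℕ) (T : Fin (M + 1) → Fin (M + 1) → Fin (r + 1) → ℤ),
      ∀ n s : ℤ, IsQuotient (h (n + c) s (res T)) (h n s X) := by
    rintro X ⟨hX, hp, hs, hT⟩
    obtain ⟨M, r, c, T, h2⟩ := exists_quotient_res_int hh hW hw hX hs hp hT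
    exact ⟨M, r, c, T, fun n s => h2 (comp T) (res T) (hcomp T).1 (hcomp T).2.2 (hres T).2 n s⟩
  have h2 : ∀ S : 𝓜, (∃ X : SchO ℚ, IsSmoothProjective X ∧ IsQuotientOfHomology h S X) ↔
      ∃ (M r : ℕ) (T : Fin (M + 1) → Fin (M + 1) → Fin (r + 1) → ℤ), IsQuotientOfHomology h S (res T) := by
    intro S
    constructor
    · rintro ⟨X, hX, n, s, p, hp⟩
      obtain ⟨M, r, c, T, h2⟩ := h1 X hX
      obtain ⟨q, hq⟩ := h2 n s
      exact ⟨M, r, T, n + c, s, q ≫ p, epi_comp _ _⟩
    · rintro ⟨M, r, T, hT⟩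
      exact ⟨_, (hres T).1, hT⟩
  exact ⟨h1, h2, fun A R => forall_congr' fun a => exists_congr fun S =>
    and_congr_right fun _ => and_congr_right fun _ => h2 S⟩

end Pool.Agent.Results.MP_7742d9_nt.ResolvedIntegralCubics
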